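import Mathlib
import Pool.Agent.Run7.h610.DJDefs
import Pool.Agent.Run7.h610.DJMain

/-!
# The case `τ = 2` of the conjecture of Chudnovsky, Edwards, Kim, Scott and Seymour

If every cut of a finite digraph contains an arc of weight one and every directed cut contains at
least two, then the arcs of weight one can be decomposed into two dijoins.  The arcs of weight one
form a weakly connected 2-dijoin, so this is a case of the theorem of helper610
(`Pool.Agent.Results.MP_eda7df_co.TwoDijoins`).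
-/

set_option autoImplicit false

namespace Pool.Agent.Results.MP_d1d15e_co.TauTwo

universe u v

/-- A digraph with vertex set `V` and arc set `A`: the arc `a` goes from `tail a` to `head a`.
Parallel arcs are allowed. -/
structure Digraph (V : Type u) (A : Type v) where
  /-- tail of an arc -/
  tail : A → V
  /-- head of an arc -/
  head : A → V

variable {V : Type u} {A : Type v}

/-- `δ⁺(U)`: the arcs leaving `U`. -/
def Digraph.out (D : Digraph V A) (U : Set V) : Set A := {a | D.tail a ∈ U ∧ D.head a ∉ U}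

/-- `δ⁻(U)`: the arcs entering `U`. -/
def Digraph.into (D : Digraph V A) (U : Set V) : Set A := {a | D.tail a ∉ U ∧ D.head a ∈ U}

/-- `C` is a cut: `C = δ⁺(U) ∪ δ⁻(U)` with `∅ ≠ U ≠ V`. -/
def Digraph.IsCut (D : Digraph V A) (C : Set A) : Prop :=
  ∃ U : Set V, U ≠ ∅ ∧ U ≠ Set.univ ∧ C = D.out U ∪ D.into U

/-- `C` is a dicut: `C = δ⁺(U)` with `∅ ≠ U ≠ V`, `δ⁺(U) ≠ ∅` and `δ⁻(U) = ∅`. -/
def Digraph.IsDicut (D : Digraph V A) (C : Set A) : Prop :=
  ∃ U : Set V, U ≠ ∅ ∧ U ≠ Set.univ ∧ D.out U ≠ ∅ ∧ D.into U = ∅ ∧ C = D.out U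

/-- A dijoin is a set of arcs that meets every dicut. -/
def Digraph.IsDijoin (D : Digraph V A) (J : Set A) : Prop :=
  ∀ C : Set A, D.IsDicut C → (J ∩ C).Nonempty

/-- The weight `w(B)` of an arc set. -/
noncomputable def weight (w : A → ℕ) (B : Set A) : ℕ := ∑ᶠ a ∈ B, w a

lemma weight_eq [Finite A] (w : A → ℕ) (hw : ∀ a, w a = 0 ∨ w a = 1) (B : Set A) :
    weight w B = ({a | w a = 1} ∩ B).ncard := by
  classical
  have : Fintype A := Fintype.ofFinite A
  unfold weight
  rw [finsum_mem_eq_finite_toFinset_sum _ (Set.toFinite B)]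
  rw [Set.ncard_eq_toFinset_card _ (Set.toFinite _), Finset.card_eq_sum_ones]
  rw [← Finset.sum_subset (s₁ := (Set.toFinite ({a | w a = 1} ∩ B)).toFinset)]
  · apply Finset.sum_congr rfl
    intro a ha
    simp only [Set.Finite.mem_toFinset, Set.mem_inter_iff, Set.mem_ofPred_eq] at ha
    exact ha.1
  · intro a ha
    simp only [Set.Finite.mem_toFinset, Set.mem_inter_iff, Set.mem_ofPred_eq] at ha ⊢
    exact ha.2
  · intro a ha h
    simp only [Set.Finite.mem_toFinset, Set.mem_inter_iff, Set.mem_ofPred_eq] at ha h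
    rcases hw a with h0 | h1
    · exact h0
    · exact absurd ⟨h1, ha⟩ h

/-- **The case `τ = 2`.**  Let `D` be a finite digraph and `w` a weighting of its arcs by `0` and `1`.
If every cut has weight at least one and every dicut has weight at least two, then the arcs of
weight one can be decomposed into two dijoins. -/
theorem result [Finite V] [Finite A] (D : Digraph V A) (w : A → ℕ)
    (hw : ∀ a, w a = 0 ∨ w a = 1)
    (hcut : ∀ C, D.IsCut C → 1 ≤ weight w C) (hdicut : ∀ C, D.IsDicut C → 2 ≤ weight w C) :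
    ∃ J₁ J₂ : Set A, J₁ ∪ J₂ = {a | w a = 1} ∧ J₁ ∩ J₂ = ∅ ∧ D.IsDijoin J₁ ∧ D.IsDijoin J₂ := by
  classical
  let E : Run7.h610.DJ.Dig V A := ⟨D.tail, D.head⟩
  have hout : ∀ U, E.outArcs U = D.out U := fun _ => rfl
  have hin : ∀ U, E.inArcs U = D.into U := fun _ => rfl
  have hdi : ∀ C, E.IsDicut C ↔ D.IsDicut C := by
    intro C
    constructor
    · rintro ⟨hne, X, h1, h2, h3, rfl⟩
      exact ⟨X, h1, h2, hne.ne_empty, h3, rfl⟩
    · rintro ⟨U, h1, h2, h3, h4, rfl⟩
      exact ⟨Set.nonempty_iff_ne_empty.mpr h3, U, h1, h2, h4, rfl⟩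
  have hconn : E.WeaklyConnected {a | w a = 1} := by
    intro p q
    by_contra hpq
    let R : Set V := {v | ∃ h : ∃ a ∈ {a | w a = 1}, E.src a = v ∨ E.tgt a = v,
      (E.supportGraph {a | w a = 1}).Reachable p ⟨v, h⟩}
    have hp : (p : V) ∈ R := ⟨p.2, SimpleGraph.Reachable.refl _⟩
    have hq : (q : V) ∉ R := by
      rintro ⟨h, hr⟩
      exact hpq hr
    have hc : D.IsCut (D.out R ∪ D.into R) :=
      ⟨R, fun h => by rw [h] at hp; exact hp, fun h => hq (by rw [h]; trivial), rfl⟩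
    have h1 := hcut _ hc
    rw [weight_eq w hw] at h1
    obtain ⟨a, ha, hac⟩ : ({a | w a = 1} ∩ (D.out R ∪ D.into R)).Nonempty := by
      rw [Set.nonempty_iff_ne_empty]
      intro h
      rw [h, Set.ncard_empty] at h1
      omega
    have hs : ∃ b ∈ {a | w a = 1}, E.src b = D.tail a ∨ E.tgt b = D.tail a := ⟨a, ha, Or.inl rfl⟩
    have ht : ∃ b ∈ {a | w a = 1}, E.src b = D.head a ∨ E.tgt b = D.head a := ⟨a, ha, Or.inr rfl⟩
    have hadj : (E.supportGraph {a | w a = 1}).Reachable ⟨D.tail a, hs⟩ ⟨D.head a, ht⟩ := by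
      by_cases he : D.tail a = D.head a
      · have : (⟨D.tail a, hs⟩ : {v : V // ∃ b ∈ {a | w a = 1}, E.src b = v ∨ E.tgt b = v})
            = ⟨D.head a, ht⟩ := Subtype.ext he
        rw [this]
      · apply SimpleGraph.Adj.reachable
        rw [Run7.h610.DJ.Dig.supportGraph, SimpleGraph.fromRel_adj]
        exact ⟨fun h => he (congrArg Subtype.val h), Or.inl ⟨a, ha, rfl, rfl⟩⟩
    rcases hac with ⟨⟨h, hr⟩, h2⟩ | ⟨h2, ⟨h, hr⟩⟩
    · exact h2 ⟨ht, hr.trans hadj⟩
    · exact h2 ⟨hs, hr.trans hadj.symm⟩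
  have h2 : E.IsKDijoin 2 {a | w a = 1} := by
    intro C hC
    rw [← weight_eq w hw]
    exact hdicut C ((hdi C).1 hC)
  obtain ⟨J₁, J₂, h, h', hJ₁, hJ₂⟩ := Run7.h610.DJ.two_dijoins E _ hconn h2
  refine ⟨J₁, J₂, h, h', ?_, ?_⟩
  · intro C hC
    have := hJ₁ C ((hdi C).2 hC)
    rw [Set.nonempty_iff_ne_empty]
    intro h
    rw [h, Set.ncard_empty] at this
    omega
  · intro C hC
    have := hJ₂ C ((hdi C).2 hC)
    rw [Set.nonempty_iff_ne_empty]
    intro h
    rw [h, Set.ncard_empty] at this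
    omega

end Pool.Agent.Results.MP_d1d15e_co.TauTwo
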